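import Mathlib

set_option autoImplicit false

open MeasureTheory ProbabilityTheory ValuativeRel

namespace Pool.Agent.Results.MP_90534d_pr.FailsFromDimThree

/-- `val x ≥ n` for the normalised valuation `val` of `K`, i.e. `|x| ≤ |π| ^ n`, where
`uniformizer K = |π|` is the largest value smaller than `1`. -/
def ValGE {K : Type*} [Field K] [ValuativeRel K] [IsDiscrete K] (x : K) (n : ℤ) : Prop :=
  valuation K x ≤ (uniformizer K) ^ n

/-- The lattice `A 𝒪_K ^ d` in `K ^ d`. -/
def lattice {K : Type*} [Field K] [ValuativeRel K] {d : ℕ} (A : GL (Fin d) K) :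
    Set (Fin d → K) :=
  {x | ∃ y : Fin d → K, (∀ i, valuation K (y i) ≤ 1) ∧
    x = (A : Matrix (Fin d) (Fin d) K).mulVec y}

/-- The law of the Gaussian vector with lattice `L`: the normalised Haar measure on `L`. -/
noncomputable def gaussian {K : Type*} {d : ℕ} [MeasurableSpace (Fin d → K)]
    (μ : Measure (Fin d → K)) (L : Set (Fin d → K)) : Measure (Fin d → K) :=
  (μ L)⁻¹ • μ.restrict L

/-- The tail function `φ_L (v) = - log_q P (V ≥ v)` of the tropicalization `V` of the Gaussian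
vector with lattice `L`. -/
noncomputable def tail {K : Type*} [Field K] [ValuativeRel K] [IsDiscrete K] {d : ℕ}
    [MeasurableSpace (Fin d → K)] (μ : Measure (Fin d → K)) (L : Set (Fin d → K))
    (v : Fin d → ℤ) : ℝ :=
  - Real.logb (Nat.card 𝓀[K]) (gaussian μ L {x | ∀ i, ValGE (x i) (v i)}).toReal

/-- The restriction to `ℤ ^ d` of the tropical polynomial `max_I (∑_{i ∈ I} v_i - c_I)`
supported on the cube `{0,1} ^ d`. -/
noncomputable def trop {d : ℕ} (c : Finset (Fin d) → ℤ) (v : Fin d → ℤ) : ℝ :=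
  ((Finset.univ.sup' Finset.univ_nonempty (fun I : Finset (Fin d) => ∑ i ∈ I, v i - c I) : ℤ) : ℝ)

/-- Integer supermodular coefficients with `c_∅ = 0`. -/
def Supermodular {d : ℕ} (c : Finset (Fin d) → ℤ) : Prop :=
  c ∅ = 0 ∧ ∀ I J : Finset (Fin d), c I + c J ≤ c (I ∪ J) + c (I ∩ J)

/-- The coefficients of the counterexample: with the first three coordinates called `0, 1, 2`,
`c_I = 2` if `0, 1, 2 ∈ I`, `c_I = 1` if `2 ∈ I` and exactly one of `0, 1` is in `I`, and
`c_I = 0` otherwise. -/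
def coef {d : ℕ} (hd : 3 ≤ d) (I : Finset (Fin d)) : ℤ :=
  if (⟨2, by omega⟩ : Fin d) ∈ I then
    (if (⟨0, by omega⟩ : Fin d) ∈ I then 1 else 0) + (if (⟨1, by omega⟩ : Fin d) ∈ I then 1 else 0)
  else 0

lemma coef_supermodular {d : ℕ} (hd : 3 ≤ d) : Supermodular (coef hd) := by
  refine ⟨by simp [coef], fun I J => ?_⟩
  unfold coef
  simp only [Finset.mem_union, Finset.mem_inter]
  by_cases h0 : (⟨0, by omega⟩ : Fin d) ∈ I <;> by_cases h1 : (⟨1, by omega⟩ : Fin d) ∈ I <;>
  by_cases h2 : (⟨2, by omega⟩ : Fin d) ∈ I <;> by_cases g0 : (⟨0, by omega⟩ : Fin d) ∈ J <;>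
  by_cases g1 : (⟨1, by omega⟩ : Fin d) ∈ J <;> by_cases g2 : (⟨2, by omega⟩ : Fin d) ∈ J <;>
  simp [h0, h1, h2, g0, g1, g2]

lemma sum_ind {d : ℕ} (S I : Finset (Fin d)) :
    ∑ i ∈ I, (if i ∈ S then (1 : ℤ) else 0) = ((I ∩ S).card : ℤ) := by
  rw [Finset.sum_ite_mem]
  simp

lemma card_single {d : ℕ} (I : Finset (Fin d)) (i : Fin d) :
    (I ∩ {i}).card = if i ∈ I then 1 else 0 := by
  by_cases h : i ∈ I
  · rw [Finset.inter_singleton_of_mem h]; simp [h]
  · rw [Finset.inter_singleton_of_notMem h]; simp [h]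

lemma card_pair {d : ℕ} (I : Finset (Fin d)) {i j : Fin d} (hij : i ≠ j) :
    (I ∩ {i, j}).card = (if i ∈ I then 1 else 0) + (if j ∈ I then 1 else 0) := by
  have h : ({i, j} : Finset (Fin d)) = {i} ∪ {j} := rfl
  rw [h, Finset.inter_union_distrib_left, Finset.card_union_of_disjoint, card_single, card_single]
  rw [Finset.disjoint_left]
  intro a ha hb
  simp only [Finset.mem_inter, Finset.mem_singleton] at ha hb
  exact hij (ha.2.symm.trans hb.2)

/-- Values of the tropical polynomial at `0`, at unit vectors, and at sums of two of them. -/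
lemma trop_le {d : ℕ} (c : Finset (Fin d) → ℤ) (S : Finset (Fin d)) (m : ℤ)
    (h1 : ∀ I : Finset (Fin d), ((I ∩ S).card : ℤ) - c I ≤ m)
    (I₀ : Finset (Fin d)) (h2 : ((I₀ ∩ S).card : ℤ) - c I₀ = m) :
    trop c (fun i => if i ∈ S then 1 else 0) = (m : ℝ) := by
  unfold trop
  congr 1
  apply le_antisymm
  · apply Finset.sup'_le
    intro I _
    rw [sum_ind]
    exact h1 I
  · refine le_trans ?_ (Finset.le_sup' (fun I : Finset (Fin d) =>
      ∑ i ∈ I, (if i ∈ S then (1 : ℤ) else 0) - c I) (Finset.mem_univ I₀))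
    rw [sum_ind, h2]

lemma coef_nonneg {d : ℕ} (hd : 3 ≤ d) (I : Finset (Fin d)) : 0 ≤ coef hd I := by
  unfold coef
  split_ifs <;> norm_num

lemma trop_empty {d : ℕ} (hd : 3 ≤ d) :
    trop (coef hd) (fun i => if i ∈ (∅ : Finset (Fin d)) then 1 else 0) = ((0 : ℤ) : ℝ) := by
  refine trop_le _ _ _ (fun I => ?_) ∅ (by simp [coef])
  have := coef_nonneg hd I
  simp only [Finset.inter_empty, Finset.card_empty, Nat.cast_zero]
  omega

lemma trop_single {d : ℕ} (hd : 3 ≤ d) (i : Fin d) :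
    trop (coef hd) (fun k => if k ∈ ({i} : Finset (Fin d)) then 1 else 0) = ((1 : ℤ) : ℝ) := by
  refine trop_le _ _ _ (fun I => ?_) {i} ?_
  · have := coef_nonneg hd I
    rw [card_single]
    split_ifs <;> push_cast <;> omega
  · rw [card_single]
    have h2 : coef hd {i} = 0 := by
      unfold coef
      simp only [Finset.mem_singleton]
      by_cases h : (⟨2, by omega⟩ : Fin d) = i
      · subst h
        simp [Fin.ext_iff]
      · simp [h]
    rw [h2]
    simp

lemma trop_01 {d : ℕ} (hd : 3 ≤ d) :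
    trop (coef hd) (fun k => if k ∈ ({⟨0, by omega⟩, ⟨1, by omega⟩} : Finset (Fin d))
      then 1 else 0) = ((2 : ℤ) : ℝ) := by
  have h01 : (⟨0, by omega⟩ : Fin d) ≠ ⟨1, by omega⟩ := by simp [Fin.ext_iff]
  refine trop_le _ _ _ (fun I => ?_) {⟨0, by omega⟩, ⟨1, by omega⟩} ?_
  · have := coef_nonneg hd I
    rw [card_pair _ h01]
    split_ifs <;> push_cast <;> omega
  · rw [card_pair _ h01]
    simp [coef, Fin.ext_iff]

lemma trop_02 {d : ℕ} (hd : 3 ≤ d) :
    trop (coef hd) (fun k => if k ∈ ({⟨0, by omega⟩, ⟨2, by omega⟩} : Finset (Fin d))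
      then 1 else 0) = ((1 : ℤ) : ℝ) := by
  have h01 : (⟨0, by omega⟩ : Fin d) ≠ ⟨2, by omega⟩ := by simp [Fin.ext_iff]
  refine trop_le _ _ _ (fun I => ?_) {⟨0, by omega⟩} ?_
  · rw [card_pair _ h01]
    unfold coef
    split_ifs <;> push_cast <;> omega
  · rw [card_pair _ h01]
    simp [coef, Fin.ext_iff]

lemma trop_12 {d : ℕ} (hd : 3 ≤ d) :
    trop (coef hd) (fun k => if k ∈ ({⟨1, by omega⟩, ⟨2, by omega⟩} : Finset (Fin d))
      then 1 else 0) = ((1 : ℤ) : ℝ) := by
  have h01 : (⟨1, by omega⟩ : Fin d) ≠ ⟨2, by omega⟩ := by simp [Fin.ext_iff]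
  refine trop_le _ _ _ (fun I => ?_) {⟨1, by omega⟩} ?_
  · rw [card_pair _ h01]
    unfold coef
    split_ifs <;> push_cast <;> omega
  · rw [card_pair _ h01]
    simp [coef, Fin.ext_iff]

section

variable {K : Type*} [Field K] [ValuativeRel K]
variable {d : ℕ}

lemma lattice_add {A : GL (Fin d) K} {x y : Fin d → K} (hx : x ∈ lattice A)
    (hy : y ∈ lattice A) : x + y ∈ lattice A := by
  obtain ⟨a, ha, rfl⟩ := hx
  obtain ⟨b, hb, rfl⟩ := hy
  refine ⟨a + b, fun i => ?_, by rw [Matrix.mulVec_add]⟩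
  exact (Valuation.map_add _ _ _).trans (max_le (ha i) (hb i))

lemma lattice_smul {A : GL (Fin d) K} {r : K} (hr : valuation K r ≤ 1) {x : Fin d → K}
    (hx : x ∈ lattice A) : r • x ∈ lattice A := by
  obtain ⟨a, ha, rfl⟩ := hx
  refine ⟨r • a, fun i => ?_, by rw [Matrix.mulVec_smul]⟩
  simp only [Pi.smul_apply, smul_eq_mul, map_mul]
  exact mul_le_one' hr (ha i)

lemma lattice_sub_smul {A : GL (Fin d) K} {r : K} (hr : valuation K r ≤ 1) {x y : Fin d → K}
    (hx : x ∈ lattice A) (hy : y ∈ lattice A) : x - r • y ∈ lattice A := by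
  have h := lattice_smul (r := -r) (by rw [Valuation.map_neg]; exact hr) hy
  have h2 := lattice_add hx h
  rwa [neg_smul, ← sub_eq_add_neg] at h2

lemma mem_lattice_iff {A : GL (Fin d) K} {x : Fin d → K} :
    x ∈ lattice A ↔ ∀ i, valuation K (((A⁻¹ : GL (Fin d) K) :
      Matrix (Fin d) (Fin d) K).mulVec x i) ≤ 1 := by
  constructor
  · rintro ⟨y, hy, rfl⟩ i
    rw [Matrix.mulVec_mulVec, ← Units.val_mul, inv_mul_cancel, Units.val_one, Matrix.one_mulVec]
    exact hy i
  · intro h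
    refine ⟨_, h, ?_⟩
    rw [Matrix.mulVec_mulVec, ← Units.val_mul, mul_inv_cancel, Units.val_one, Matrix.one_mulVec]

end

section

variable {K : Type*} [Field K] [ValuativeRel K] [TopologicalSpace K] [IsNonarchimedeanLocalField K]
variable {d : ℕ}

lemma isOpen_valLE {γ : ValueGroupWithZero K} (hγ : γ ≠ 0) :
    IsOpen {x : K | valuation K x ≤ γ} := by
  rw [isOpen_iff_mem_nhds]
  intro x hx
  rw [IsValuativeTopology.mem_nhds_iff]
  refine ⟨Units.mk0 γ hγ, ?_⟩
  rintro _ ⟨z, hz, rfl⟩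
  have hz' : valuation K z < γ := hz
  exact (Valuation.map_add _ _ _).trans (max_le hx hz'.le)

lemma t2K : T2Space K := by
  let := IsTopologicalAddGroup.rightUniformSpace K
  have := isUniformAddGroup_of_addCommGroup (G := K)
  infer_instance

lemma uniformizer_zpow_ne (n : ℤ) : (uniformizer K) ^ n ≠ 0 :=
  zpow_ne_zero _ uniformizer_ne_zero

lemma isOpen_valGE (n : ℤ) : IsOpen {x : K | ValGE x n} := isOpen_valLE (uniformizer_zpow_ne n)

lemma isClosed_valGE (n : ℤ) : IsClosed {x : K | ValGE x n} := by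
  have := t2K (K := K)
  exact (IsNonarchimedeanLocalField.isCompact_closedBall K ((uniformizer K) ^ n)).isClosed

lemma isOpen_lattice (A : GL (Fin d) K) : IsOpen (lattice A) := by
  have h : lattice A = ⋂ i, {x : Fin d → K | valuation K (((A⁻¹ : GL (Fin d) K) :
      Matrix (Fin d) (Fin d) K).mulVec x i) ≤ 1} := by
    ext x
    simp [mem_lattice_iff]
  rw [h]
  refine isOpen_iInter_of_finite (fun i => ?_)
  refine (isOpen_valLE (K := K) one_ne_zero).preimage ?_
  exact (continuous_apply i).comp (Continuous.matrix_mulVec continuous_const continuous_id)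

lemma isCompact_lattice (A : GL (Fin d) K) : IsCompact (lattice A) := by
  have h : lattice A = (fun y : Fin d → K => (A : Matrix (Fin d) (Fin d) K).mulVec y) ''
      (Set.univ.pi (fun _ => {x : K | valuation K x ≤ 1})) := by
    ext x
    constructor
    · rintro ⟨y, hy, rfl⟩
      exact ⟨y, fun i _ => hy i, rfl⟩
    · rintro ⟨y, hy, rfl⟩
      exact ⟨y, fun i => hy i trivial, rfl⟩
  rw [h]
  refine (isCompact_univ_pi (fun _ => IsNonarchimedeanLocalField.isCompact_closedBall K 1)).image ?_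
  exact Continuous.matrix_mulVec continuous_const continuous_id

/-- The event `V ≥ 1_S`. -/
def ev (S : Finset (Fin d)) : Set (Fin d → K) := {x | ∀ i, ValGE (x i) (if i ∈ S then 1 else 0)}

lemma isOpen_ev (S : Finset (Fin d)) : IsOpen (ev S : Set (Fin d → K)) := by
  have h : (ev S : Set (Fin d → K)) = ⋂ i, {x : Fin d → K | ValGE (x i) (if i ∈ S then 1 else 0)} := by
    ext x
    simp [ev]
  rw [h]
  exact isOpen_iInter_of_finite (fun i => (isOpen_valGE _).preimage (continuous_apply i))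

lemma isClosed_ev (S : Finset (Fin d)) : IsClosed (ev S : Set (Fin d → K)) := by
  have h : (ev S : Set (Fin d → K)) = ⋂ i, {x : Fin d → K | ValGE (x i) (if i ∈ S then 1 else 0)} := by
    ext x
    simp [ev]
  rw [h]
  exact isClosed_iInter (fun i => (isClosed_valGE _).preimage (continuous_apply i))

lemma zero_mem_ev (S : Finset (Fin d)) : (0 : Fin d → K) ∈ ev S := by
  intro i
  simp [ValGE]

lemma zero_mem_lattice (A : GL (Fin d) K) : (0 : Fin d → K) ∈ lattice A :=
  ⟨0, fun i => by simp, by simp⟩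

lemma valGE_add {x y : K} {n : ℤ} (hx : ValGE x n) (hy : ValGE y n) : ValGE (x + y) n :=
  (Valuation.map_add _ _ _).trans (max_le hx hy)

lemma valGE_sub {x y : K} {n : ℤ} (hx : ValGE x n) (hy : ValGE y n) : ValGE (x - y) n :=
  (Valuation.map_sub _ _ _).trans (max_le hx hy)

lemma valGE_zero_iff {x : K} : ValGE x 0 ↔ valuation K x ≤ 1 := by simp [ValGE]

lemma valGE_one_iff {x : K} : ValGE x 1 ↔ valuation K x < 1 := by
  simp [ValGE, le_uniformizer_iff]

lemma ev_mono {S T : Finset (Fin d)} (h : S ⊆ T) : (ev T : Set (Fin d → K)) ⊆ ev S := by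
  intro x hx i
  by_cases hi : i ∈ S
  · have := hx i
    simp only [h hi, if_true] at this
    simpa [hi] using this
  · have := hx i
    simp only [hi, if_false]
    by_cases hT : i ∈ T
    · simp only [hT, if_true] at this
      rw [valGE_one_iff] at this
      rw [valGE_zero_iff]
      exact this.le
    · simpa [hT] using this

variable [MeasurableSpace (Fin d → K)] [BorelSpace (Fin d → K)]

lemma subset_of_measure_eq (μ : Measure (Fin d → K)) [μ.IsAddHaarMeasure]
    {W₁ W₂ U : Set (Fin d → K)} (hU : IsOpen U) (hU0 : (0 : Fin d → K) ∈ U)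
    (hW : MeasurableSet W₁) (h12 : W₁ ⊆ W₂) (hfin : μ W₂ ≠ ⊤) (heq : μ W₁ = μ W₂)
    (hadd : ∀ x ∈ W₂ \ W₁, ∀ u ∈ U, x + u ∈ W₂ \ W₁) : W₂ ⊆ W₁ := by
  by_contra hcon
  obtain ⟨x, hx2, hx1⟩ := Set.not_subset.mp hcon
  have h0 : μ (W₂ \ W₁) = 0 := by
    rw [measure_sdiff h12 hW.nullMeasurableSet (by rw [heq]; exact hfin), heq, tsub_self]
  have h1 : (fun u => x + u) '' U ⊆ W₂ \ W₁ := by
    rintro _ ⟨u, hu, rfl⟩
    exact hadd x ⟨hx2, hx1⟩ u hu
  have h2 : μ ((fun u => x + u) '' U) = 0 := measure_mono_null h1 h0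
  have h3 : μ U = 0 := by
    have h4 : (fun u => x + u) '' U = (fun u => -x + u) ⁻¹' U := by
      ext z
      constructor
      · rintro ⟨u, hu, rfl⟩
        simpa using hu
      · intro hz
        exact ⟨-x + z, hz, by simp⟩
    rw [h4, measure_preimage_add] at h2
    exact h2
  exact (hU.measure_pos μ ⟨0, hU0⟩).ne' h3

/-- The tail function of no lattice is the tropical polynomial with the coefficients `coef`. -/
theorem tail_ne_trop (μ : Measure (Fin d → K)) [μ.IsAddHaarMeasure]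
    (hd : 3 ≤ d) (A : GL (Fin d) K) : tail μ (lattice A) ≠ trop (coef hd) := by
  intro hphi
  set L := lattice A with hL
  have hLo : IsOpen L := isOpen_lattice A
  have hLc : IsCompact L := isCompact_lattice A
  have hμ0 : μ L ≠ 0 := (hLo.measure_pos μ ⟨0, zero_mem_lattice A⟩).ne'
  have hμt : μ L ≠ ⊤ := hLc.measure_lt_top.ne
  have hLm : MeasurableSet L := hLo.measurableSet
  have hq1 : 1 < Nat.card 𝓀[K] := Finite.one_lt_card
  set q := Nat.card 𝓀[K] with hq
  have hq1' : (1 : ℝ) < q := by exact_mod_cast hq1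
  -- the probabilities
  have hP : ∀ (S : Finset (Fin d)) (m : ℤ),
      trop (coef hd) (fun i => if i ∈ S then 1 else 0) = (m : ℝ) →
      (μ (ev S ∩ L)).toReal = (q : ℝ) ^ (-m) * (μ L).toReal := by
    intro S m hm
    have h1 := congrFun hphi (fun i => if i ∈ S then 1 else 0)
    rw [hm] at h1
    unfold tail at h1
    have h2 : gaussian μ L {x | ∀ i, ValGE (x i) (if i ∈ S then 1 else 0)} =
        (μ L)⁻¹ * μ (ev S ∩ L) := by
      unfold gaussian
      rw [Measure.smul_apply, Measure.restrict_apply]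
      · rfl
      · exact (isOpen_ev S).measurableSet
    rw [h2] at h1
    have hpos : 0 < μ (ev S ∩ L) :=
      ((isOpen_ev S).inter hLo).measure_pos μ ⟨0, zero_mem_ev S, zero_mem_lattice A⟩
    have hlt : μ (ev S ∩ L) ≠ ⊤ := ((measure_mono Set.inter_subset_right).trans_lt
      hLc.measure_lt_top).ne
    rw [ENNReal.toReal_mul, ENNReal.toReal_inv] at h1
    have ha : 0 < (μ L).toReal := ENNReal.toReal_pos hμ0 hμt
    have hb : 0 < (μ (ev S ∩ L)).toReal := ENNReal.toReal_pos hpos.ne' hlt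
    have h3 : Real.logb q ((μ L).toReal⁻¹ * (μ (ev S ∩ L)).toReal) = ((-m : ℤ) : ℝ) := by
      push_cast
      linarith
    have h4 : (q : ℝ) ^ (((-m : ℤ) : ℝ)) = (μ L).toReal⁻¹ * (μ (ev S ∩ L)).toReal := by
      rw [← h3, Real.rpow_logb (by positivity) hq1'.ne' (by positivity)]
    rw [Real.rpow_intCast] at h4
    rw [h4]
    field_simp
  have hfin : ∀ S : Finset (Fin d), μ (ev S ∩ L) ≠ ⊤ := fun S =>
    ((measure_mono Set.inter_subset_right).trans_lt hLc.measure_lt_top).ne
  have hmeas : ∀ S : Finset (Fin d), MeasurableSet (ev S ∩ L) := fun S =>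
    (isOpen_ev S).measurableSet.inter hLm
  have hLpos : 0 < (μ L).toReal := ENNReal.toReal_pos hμ0 hμt
  have hU : IsOpen (ev Finset.univ ∩ L) := (isOpen_ev _).inter hLo
  have hU0 : (0 : Fin d → K) ∈ ev Finset.univ ∩ L := ⟨zero_mem_ev _, zero_mem_lattice A⟩
  have hsub : ∀ S : Finset (Fin d), ∀ x, x ∉ ev S → ∀ u ∈ ev Finset.univ ∩ L, x + u ∉ ev S := by
    intro S x hx u hu hxu
    apply hx
    intro i
    have h1 := hxu i
    have h2 := ev_mono (Finset.subset_univ S) hu.1 i
    have h3 := valGE_sub h1 h2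
    simpa using h3
  have hadd : ∀ S : Finset (Fin d), ∀ x ∈ ev S, ∀ u ∈ ev Finset.univ ∩ L, x + u ∈ ev S := by
    intro S x hx u hu i
    exact valGE_add (hx i) (ev_mono (Finset.subset_univ S) hu.1 i)
  -- equal probabilities of nested events force equality of the events
  have heq : ∀ S T : Finset (Fin d), S ⊆ T → ∀ m : ℤ,
      trop (coef hd) (fun i => if i ∈ S then 1 else 0) = (m : ℝ) →
      trop (coef hd) (fun i => if i ∈ T then 1 else 0) = (m : ℝ) →
      ev S ∩ L ⊆ ev T ∩ L := by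
    intro S T hST m hS hT
    refine subset_of_measure_eq μ hU hU0 (hmeas T)
      (Set.inter_subset_inter_left _ (ev_mono hST)) (hfin S) ?_ ?_
    · exact (ENNReal.toReal_eq_toReal_iff' (hfin _) (hfin _)).mp
        ((hP T m hT).trans (hP S m hS).symm)
    · intro y hy u hu
      refine ⟨⟨hadd _ y hy.1.1 u hu, lattice_add hy.1.2 hu.2⟩, fun h => ?_⟩
      exact hsub _ y (fun h' => hy.2 ⟨h', hy.1.2⟩) u hu h.1
  set i0 : Fin d := ⟨0, by omega⟩ with hi0
  set i1 : Fin d := ⟨1, by omega⟩ with hi1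
  set i2 : Fin d := ⟨2, by omega⟩ with hi2
  have h02 : ev {i0} ∩ L ⊆ ev {i0, i2} ∩ L :=
    heq {i0} {i0, i2} (by simp) 1 (trop_single hd i0) (trop_02 hd)
  have h21 : ev {i2} ∩ L ⊆ ev {i1, i2} ∩ L :=
    heq {i2} {i1, i2} (by simp) 1 (trop_single hd i2) (trop_12 hd)
  have h01 : ev {i0} ∩ L ⊆ ev {i0, i1} ∩ L := by
    rintro x ⟨hx, hxL⟩
    have hx2 : x ∈ ev {i2} ∩ L := ⟨ev_mono (by simp) (h02 ⟨hx, hxL⟩).1, hxL⟩
    have hx1 : x ∈ ev {i1} := ev_mono (by simp) (h21 hx2).1
    refine ⟨fun k => ?_, hxL⟩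
    by_cases hk : k ∈ ({i0, i1} : Finset (Fin d))
    · simp only [hk, if_true]
      simp only [Finset.mem_insert, Finset.mem_singleton] at hk
      rcases hk with rfl | rfl
      · simpa using hx i0
      · simpa using hx1 i1
    · simp only [hk, if_false]
      have h3 := ev_mono (Finset.empty_subset _) hx k
      simpa using h3
  have h01' : ev {i0} ∩ L = ev {i0, i1} ∩ L :=
    Set.Subset.antisymm h01 (Set.inter_subset_inter_left _ (ev_mono (by simp)))
  have h2 := hP {i0} 1 (trop_single hd i0)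
  rw [h01', hP {i0, i1} 2 (trop_01 hd)] at h2
  have h4 : (q : ℝ) ^ (-(2 : ℤ)) = (q : ℝ) ^ (-(1 : ℤ)) := mul_right_cancel₀ hLpos.ne' h2
  have h5 := zpow_right_injective₀ (by linarith : (0 : ℝ) < q) hq1'.ne' h4
  norm_num at h5

end

/-- **Q1 of MP_90534d_pr fails for every local field `K` in every dimension `d ≥ 3`.**
For every non-archimedean local field `K` and every `d ≥ 3` there are integer supermodular
coefficients `c` (with `c_∅ = 0`) such that the tropical polynomial
`max_I (∑_{i ∈ I} v_i - c_I)` is not the tail function of the tropicalization of any Gaussian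
vector; in particular the proposed characterization is false. -/
theorem result (K : Type*) [Field K] [ValuativeRel K] [TopologicalSpace K]
    [IsNonarchimedeanLocalField K] (d : ℕ) [MeasurableSpace (Fin d → K)] [BorelSpace (Fin d → K)]
    (μ : Measure (Fin d → K)) [μ.IsAddHaarMeasure] (hd : 3 ≤ d) :
    (∃ c : Finset (Fin d) → ℤ, Supermodular c ∧
      ∀ A : GL (Fin d) K, tail μ (lattice A) ≠ trop c) ∧
    ¬ (∀ φ : (Fin d → ℤ) → ℝ, (∃ A : GL (Fin d) K, φ = tail μ (lattice A)) ↔
      ∃ c : Finset (Fin d) → ℤ, Supermodular c ∧ φ = trop c) := by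
  refine ⟨⟨coef hd, coef_supermodular hd, tail_ne_trop μ hd⟩, fun h => ?_⟩
  obtain ⟨A, hA⟩ := (h (trop (coef hd))).mpr ⟨coef hd, coef_supermodular hd, rfl⟩
  exact tail_ne_trop μ hd A hA.symm

end Pool.Agent.Results.MP_90534d_pr.FailsFromDimThree
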